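import Pool.Agent.Q235.SY.Main

/-!
Amenable coverings of the complement of a closed set: the converse.
-/

set_option autoImplicit false

open Set Filter Topology MeasureTheory
open scoped Manifold ContDiff

noncomputable section

namespace Pool.Agent.Q235.SY

open Pool.Agent.Y501.SY Pool.Agent.Y604.SY

section

variable {d : ℕ} {Z X : Type} [TopologicalSpace Z] [ChartedSpace (E d) Z]
  [IsManifold (𝓡 d) ∞ Z] [TopologicalSpace X] [ChartedSpace (E d) X]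
  [IsManifold (𝓡 d) ∞ X] {Γ : Type} [Group Γ] [MulAction Γ Z]

/-- the values of the pull-back in a chart -/
theorem val' {pr : Z → X} (hloc : IsLocalDiffeomorph (𝓡 d) (𝓡 d) ∞ pr) (σ : Form d X 2)
    (x : X) {p : E d} (hp : p ∈ (chartAt (E d) x).target) {z : Z}
    (hz : pr z = (chartAt (E d) x).symm p) (u v : TangentSpace (𝓡 d) z) :
    pull (d := d) pr σ z ![u, v] = pb (chartAt (E d) x).symm σ p ![ich pr x z u, ich pr x z v] ∧
      (mfderiv (𝓡 d) (𝓡 d) pr z : E d →L[ℝ] E d) u =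
        Pool.Agent.Y455.SY.A x p (ich pr x z u) := by
  have key : ∀ u : TangentSpace (𝓡 d) z, (mfderiv (𝓡 d) (𝓡 d) pr z : E d →L[ℝ] E d) u =
      Pool.Agent.Y455.SY.A x p (ich pr x z u) := by
    intro u
    have h1 := Pool.Agent.Y455.SY.AB x hp ((mfderiv (𝓡 d) (𝓡 d) pr z : E d →L[ℝ] E d) u)
    rw [ich_eq hloc x hp hz u _ h1.symm]
    exact h1.symm
  refine ⟨?_, key u⟩
  rw [pull_apply, pb_app2]
  have h1 := form_congr σ hz (Pool.Agent.Y455.SY.A x p (ich pr x z u))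
    (Pool.Agent.Y455.SY.A x p (ich pr x z v))
  rw [← key u, ← key v] at h1
  have h2 : (σ ((chartAt (E d) x).symm p) : (E d) [⋀^Fin 2]→L[ℝ] ℝ)
      ![(mfderiv (𝓡 d) (𝓡 d) pr z : E d →L[ℝ] E d) u,
        (mfderiv (𝓡 d) (𝓡 d) pr z : E d →L[ℝ] E d) v] =
      (σ ((chartAt (E d) x).symm p) : (E d) [⋀^Fin 2]→L[ℝ] ℝ)
      ![Pool.Agent.Y455.SY.A x p (ich pr x z u), Pool.Agent.Y455.SY.A x p (ich pr x z v)] := by
    rw [key u, key v]
  exact h1.trans h2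

theorem conv {pr : Z → X} {K : Set X}
    (hsm : ∀ γ : Γ, ContMDiff (𝓡 d) (𝓡 d) ∞ (fun z : Z => γ • z))
    (hloc : IsLocalDiffeomorph (𝓡 d) (𝓡 d) ∞ pr)
    (hfib : ∀ z z' : Z, pr z = pr z' ↔ ∃ γ : Γ, γ • z = z')
    {J : End d X} (hJ : IsAlmostComplex J)
    {σ : Form d X 2} (hσ : IsSmooth σ) (hσc : IsClosedForm σ) (ht : ∀ x, TamesAt σ J x) :
    IsSmooth (pull (d := d) pr σ) ∧ IsClosedForm (pull (d := d) pr σ) ∧
      BoundedTranslates (Γ := Γ) (pull (d := d) pr σ) ∧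
      (∀ x : X, ∃ B : ℝ, ∀ᶠ y in 𝓝 x, ∀ z : Z, pr z = y → ∀ u v : TangentSpace (𝓡 d) z,
          |pull (d := d) pr σ z ![u, v]| ≤ B * ‖ich pr x z u‖ * ‖ich pr x z v‖) ∧
      ∀ m : (Γ → ℝ) → ℝ, IsMean m → (∀ x : X, ∃ c : ℝ, 0 < c ∧ ∀ᶠ y in 𝓝 x, ∀ z : Z,
          pr z = y → ∀ u v : TangentSpace (𝓡 d) z,
          mfderiv (𝓡 d) (𝓡 d) pr z v = J (pr z) (mfderiv (𝓡 d) (𝓡 d) pr z u) →
          c * ‖ich pr x z u‖ ^ 2 ≤ mean m (pull (d := d) pr σ) z u v) ∧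
        ∀ (z : Z) (u v : TangentSpace (𝓡 d) z),
          mfderiv (𝓡 d) (𝓡 d) pr z v = J (pr z) (mfderiv (𝓡 d) (𝓡 d) pr z u) →
          0 ≤ mean m (pull (d := d) pr σ) z u v := by
  have hprs : ContMDiff (𝓡 d) (𝓡 d) ∞ pr := hloc.contMDiff
  have hprγ : ∀ (γ : Γ) (z : Z), pr (γ • z) = pr z := fun γ z =>
    ((hfib z (γ • z)).2 ⟨γ, rfl⟩).symm
  have hinv := pull_inv hsm hprs hprγ σ
  obtain ⟨h1, h2⟩ := Pool.Agent.Y604.SY.t_PULL d d Z X pr σ hprs hσ hσc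
  have hmean : ∀ m : (Γ → ℝ) → ℝ, IsMean m → ∀ (z : Z) (u v : TangentSpace (𝓡 d) z),
      mean m (pull (d := d) pr σ) z u v = pull (d := d) pr σ z ![u, v] := by
    intro m hm z u v
    unfold mean
    have e1 : (fun γ : Γ => pull (d := d) (fun z : Z => γ • z) (pull (d := d) pr σ) z ![u, v]) =
        fun _ : Γ => pull (d := d) pr σ z ![u, v] := by
      funext γ
      rw [hinv γ]
    rw [e1]
    have h4 := hm.smul (pull (d := d) pr σ z ![u, v]) (fun _ => 1) ⟨1, fun _ => by simp⟩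
    rw [hm.one] at h4
    simpa using h4
  have hball : ∀ x : X, ∃ r : ℝ, 0 < r ∧
      Metric.closedBall (chartAt (E d) x x) r ⊆ (chartAt (E d) x).target := by
    intro x
    obtain ⟨r, hr, h⟩ := Metric.nhds_basis_closedBall.mem_iff.1
      ((chartAt (E d) x).open_target.mem_nhds (mem_chart_target (E d) x))
    exact ⟨r, hr, h⟩
  refine ⟨h1, h2, bdd_of_inv h1 hsm hinv, ?_, fun m hm => ⟨?_, ?_⟩⟩
  · intro x
    obtain ⟨r, hr, hb⟩ := hball x
    obtain ⟨⟨C, hC, hq⟩, -⟩ := Pool.Agent.Y44.SY.t_QB d X J hJ σ hσ x _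
      (isCompact_closedBall (chartAt (E d) x x) r) hb
    refine ⟨C, ?_⟩
    rw [← ev_chart (d := d) x (fun y => ∀ z : Z, pr z = y → ∀ u v : TangentSpace (𝓡 d) z,
          |pull (d := d) pr σ z ![u, v]| ≤ C * ‖ich pr x z u‖ * ‖ich pr x z v‖)]
    filter_upwards [Metric.closedBall_mem_nhds _ hr] with p hp z hz u v
    rw [(val' hloc σ x (hb hp) hz u v).1]
    refine (le_norm2 _ _ _).trans ?_
    have := (hq p hp).1
    gcongr
  · intro x
    obtain ⟨r, hr, hb⟩ := hball x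
    obtain ⟨-, hlow⟩ := Pool.Agent.Y44.SY.t_QB d X J hJ σ hσ x _
      (isCompact_closedBall (chartAt (E d) x x) r) hb
    obtain ⟨c, hc, hlow⟩ := hlow fun p _ => ht _
    refine ⟨c, hc, ?_⟩
    rw [← ev_chart (d := d) x (fun y => ∀ z : Z, pr z = y → ∀ u v : TangentSpace (𝓡 d) z,
          mfderiv (𝓡 d) (𝓡 d) pr z v = J (pr z) (mfderiv (𝓡 d) (𝓡 d) pr z u) →
          c * ‖ich pr x z u‖ ^ 2 ≤ mean m (pull (d := d) pr σ) z u v)]
    filter_upwards [Metric.closedBall_mem_nhds _ hr] with p hp z hz u v huv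
    rw [hmean m hm, (val' hloc σ x (hb hp) hz u v).1]
    have h5 : ich pr x z v = inChart J x p (ich pr x z u) := by
      have h6 := (val' hloc σ x (hb hp) hz v u).2
      have h7 := (val' hloc σ x (hb hp) hz u v).2
      have h8 := end_congr J hz (Pool.Agent.Y455.SY.A x p (ich pr x z u))
      have h9 : (Pool.Agent.Y455.SY.A x p) (inChart J x p (ich pr x z u)) =
          J ((chartAt (E d) x).symm p) (Pool.Agent.Y455.SY.A x p (ich pr x z u)) :=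
        Pool.Agent.Y455.SY.AB x (hb hp) _
      have h10 : (mfderiv (𝓡 d) (𝓡 d) pr z : E d →L[ℝ] E d) v =
          (J (pr z) : E d →L[ℝ] E d) ((mfderiv (𝓡 d) (𝓡 d) pr z : E d →L[ℝ] E d) u) := huv
      rw [h6, h7, h8] at h10
      have h11 : Pool.Agent.Y455.SY.A x p (ich pr x z v) =
          Pool.Agent.Y455.SY.A x p (inChart J x p (ich pr x z u)) := h10.trans h9.symm
      have h12 := congrArg (Pool.Agent.Y455.SY.B x p) h11
      rwa [Pool.Agent.Y455.SY.BA x (hb hp), Pool.Agent.Y455.SY.BA x (hb hp)] at h12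
    rw [h5]
    exact hlow p hp _
  · intro z u v huv
    rw [hmean m hm, pull_apply, huv]
    by_cases hu : (mfderiv (𝓡 d) (𝓡 d) pr z u) = 0
    · rw [hu]
      have h3 : (![0, J (pr z) 0] : Fin 2 → TangentSpace (𝓡 d) (pr z)) = 0 := by
        rw [map_zero]
        funext i; fin_cases i <;> rfl
      rw [h3]
      exact ((σ (pr z)).map_zero).ge
    · exact (ht (pr z) _ hu).le

end

end Pool.Agent.Q235.SY

namespace Pool.Agent.Q235.SYP

open Pool.Agent.Y501.SYP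

attribute [local instance] cs mf

theorem conv {d : ℕ} {Z X : Type} [TopologicalSpace Z] [ChartedSpace (ES d) Z]
    [IsManifold 𝓘(ℝ, ES d) ∞ Z] [TopologicalSpace X] [ChartedSpace (ES d) X]
    [IsManifold 𝓘(ℝ, ES d) ∞ X]
    {Γ : Type} [Group Γ] [MulAction Γ Z]
    (J : End (ES d) X) (hJ : IsAlmostComplex J) (K : Set X)
    (pr : Z → X) (hpr : CoveringOff (ES d) Γ pr K)
    (σ : Form (ES d) X 2) (hσ : IsTamingSymplectic σ J) :
    ∃ w : Form (ES d) Z 2, IsSmooth w ∧ IsClosedForm w ∧ BoundedTranslates Γ w ∧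
      (∀ x, BddOver pr w x) ∧ ∀ m : (Γ → ℝ) → ℝ, IsMean m →
        (∀ x, MeanTamesNear m pr J w x) ∧ ∀ (z : Z) (u v : TangentSpace 𝓘(ℝ, ES d) z),
          IsLift pr J z u v → 0 ≤ meanAt m w z u v := by
  obtain ⟨h1, h2, h3, h4, h5⟩ := SY.conv (d := d) (Z := Z) (X := X) (Γ := Γ) (pr := pr) (K := K)
    hpr.smooth hpr.diffeo hpr.orbits (J := J) (ac_of J hJ) (σ := σ)
    ((smooth_iff σ).1 hσ.smooth) ((closed_iff σ).1 hσ.closed) hσ.tames
  exact ⟨_, (smooth_iff _).2 h1, (closed_iff _).2 h2, (bdt_iff _).2 h3, h4,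
    fun m hm => h5 m (mean_of hm)⟩

/-- the equivalence -/
theorem equiv {d : ℕ} {Z X : Type} [TopologicalSpace Z] [ChartedSpace (ES d) Z]
    [IsManifold 𝓘(ℝ, ES d) ∞ Z] [TopologicalSpace X] [ChartedSpace (ES d) X]
    [IsManifold 𝓘(ℝ, ES d) ∞ X] [CompactSpace X] [T2Space X] (hd : 1 ≤ d)
    {Γ : Type} [Group Γ] [MulAction Γ Z] {m : (Γ → ℝ) → ℝ} (hm : IsMean m)
    (J : End (ES d) X) (hJ : IsAlmostComplex J) (K : Set X) (hK : IsClosed K)
    (hH : ∀ x₀ : X, μH[(d : ℝ) - 1] (chartAt (ES d) x₀ '' (K ∩ (chartAt (ES d) x₀).source)) = 0)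
    (pr : Z → X) (hpr : CoveringOff (ES d) Γ pr K) :
    (∃ σ : Form (ES d) X 2, IsTamingSymplectic σ J) ↔
    ∃ w : Form (ES d) Z 2, IsSmooth w ∧ IsClosedForm w ∧ BoundedTranslates Γ w ∧
      (∀ x ∈ K, BddOver pr w x) ∧
      (∀ (z : Z) (u v : TangentSpace 𝓘(ℝ, ES d) z), IsLift pr J z u v → 0 ≤ meanAt m w z u v) ∧
      ∀ x ∈ MeanCrit m pr J w, SmallAll J (connectedComponentIn (MeanCrit m pr J w) x) x := by
  constructor
  · rintro ⟨σ, hσ⟩
    obtain ⟨w, h1, h2, h3, h4, h5⟩ := conv (Γ := Γ) J hJ K pr hpr σ hσ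
    exact ⟨w, h1, h2, h3, fun x _ => h4 x, (h5 m hm).2, fun x hx => absurd ((h5 m hm).1 x) hx⟩
  · rintro ⟨w, h1, h2, h3, h4, h5, h6⟩
    obtain ⟨-, -, σ, -, -, -, h7, -⟩ := main hd hm J hJ K hK hH pr hpr w h1 h2 h3 h4 h5 h6 univ
      isOpen_univ (subset_univ _)
    exact ⟨σ, h7⟩

end Pool.Agent.Q235.SYP
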