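import Pool.Agent.Y501.SY.PubA
import Pool.Agent.Y501.SY.PubT

/-!
Coverings of the complement of a closed set, invariant means and forms which are positive on
average: the definitions used in the statement.
-/

set_option autoImplicit false

open Set Filter Topology MeasureTheory
open scoped Manifold ContDiff

noncomputable section

namespace Pool.Agent.Q235.SYP

open Pool.Agent.Y501.SYP

variable {V : Type} [NormedAddCommGroup V] [NormedSpace ℝ V]
  {Z X : Type} [TopologicalSpace Z] [ChartedSpace V Z]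
  [TopologicalSpace X] [ChartedSpace V X]

variable (V) in
/-- `pr : Z → X` is a smooth local diffeomorphism with image the complement of `K`, the group `Γ`
acts on `Z` by smooth maps and its orbits are the fibres of `pr`.  For instance a normal covering
of the complement of `K` with the deck group `Γ`. -/
structure CoveringOff (Γ : Type) [Group Γ] [MulAction Γ Z] (pr : Z → X) (K : Set X) : Prop where
  smooth : ∀ γ : Γ, ContMDiff 𝓘(ℝ, V) 𝓘(ℝ, V) ∞ (fun z : Z => γ • z)
  diffeo : IsLocalDiffeomorph 𝓘(ℝ, V) 𝓘(ℝ, V) ∞ pr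
  range : Set.range pr = Kᶜ
  orbits : ∀ z z' : Z, pr z = pr z' ↔ ∃ γ : Γ, γ • z = z'

/-- The image of the tangent vector `u` of `Z` at `z` under the derivative of the composition of
`pr` with the chart of `X` at `x`. -/
def inCh (pr : Z → X) (x : X) (z : Z) (u : TangentSpace 𝓘(ℝ, V) z) : V :=
  mfderiv 𝓘(ℝ, V) 𝓘(ℝ, V) (fun z : Z => chartAt V x (pr z)) z u

/-- The two-form `w` on `Z` is bounded over a neighbourhood of `x` in `X`, with respect to the norm
of the chart of `X` at `x`. -/
def BddOver (pr : Z → X) (w : Form V Z 2) (x : X) : Prop :=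
  ∃ B : ℝ, ∀ᶠ y in 𝓝 x, ∀ z : Z, pr z = y → ∀ u v : TangentSpace 𝓘(ℝ, V) z,
    |w z ![u, v]| ≤ B * ‖inCh pr x z u‖ * ‖inCh pr x z v‖

/-- the mean over `Γ` of the translates of the two-form `w`, at the tangent vectors `u` and `v` -/
def meanAt {Γ : Type} [Group Γ] [MulAction Γ Z] (m : (Γ → ℝ) → ℝ) (w : Form V Z 2) (z : Z)
    (u v : TangentSpace 𝓘(ℝ, V) z) : ℝ :=
  m (fun γ : Γ => translate γ w z ![u, v])

/-- `v` is the image of `u` under the lift of `J` to `Z`. -/
def IsLift (pr : Z → X) (J : End V X) (z : Z) (u v : TangentSpace 𝓘(ℝ, V) z) : Prop :=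
  mfderiv 𝓘(ℝ, V) 𝓘(ℝ, V) pr z v = J (pr z) (mfderiv 𝓘(ℝ, V) 𝓘(ℝ, V) pr z u)

/-- The mean of the translates of `w` tames `J`, uniformly over a neighbourhood of `x` in `X`, with
respect to the norm of the chart of `X` at `x`. -/
def MeanTamesNear {Γ : Type} [Group Γ] [MulAction Γ Z] (m : (Γ → ℝ) → ℝ) (pr : Z → X)
    (J : End V X) (w : Form V Z 2) (x : X) : Prop :=
  ∃ c : ℝ, 0 < c ∧ ∀ᶠ y in 𝓝 x, ∀ z : Z, pr z = y → ∀ u v : TangentSpace 𝓘(ℝ, V) z,
    IsLift pr J z u v → c * ‖inCh pr x z u‖ ^ 2 ≤ meanAt m w z u v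

/-- the points of `X` over whose neighbourhoods the mean of the translates of `w` does not tame
`J` uniformly -/
def MeanCrit {Γ : Type} [Group Γ] [MulAction Γ Z] (m : (Γ → ℝ) → ℝ) (pr : Z → X)
    (J : End V X) (w : Form V Z 2) : Set X := {x | ¬ MeanTamesNear m pr J w x}

end Pool.Agent.Q235.SYP
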