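import Pool.Agent.Q235.SY.Off
import Pool.Agent.Q235.SY.PubM
import Pool.Agent.Y501.SY.FinalT
import Pool.Agent.Y501.SY.BridgeA

/-!
Amenable coverings of the complement of a closed set.
-/

set_option autoImplicit false

open Set Filter Topology MeasureTheory
open scoped Manifold ContDiff

noncomputable section

namespace Pool.Agent.Q235.SY

open Pool.Agent.Y501.SY Pool.Agent.Y604.SY

section

variable {d : ℕ} {Z X : Type} [TopologicalSpace Z] [ChartedSpace (E d) Z]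
  [IsManifold (𝓡 d) ∞ Z] [TopologicalSpace X] [ChartedSpace (E d) X]
  [IsManifold (𝓡 d) ∞ X] {Γ : Type} [Group Γ] [MulAction Γ Z]

/-- internal version of `inCh` -/
def ich (pr : Z → X) (x : X) (z : Z) (u : TangentSpace (𝓡 d) z) : E d :=
  mfderiv (𝓡 d) (𝓡 d) (fun z : Z => chartAt (E d) x (pr z)) z u

omit [IsManifold (𝓡 d) ∞ Z] in
theorem ich_eq {pr : Z → X} (hloc : IsLocalDiffeomorph (𝓡 d) (𝓡 d) ∞ pr) (x : X) {p : E d}
    (hp : p ∈ (chartAt (E d) x).target) {z : Z} (hz : pr z = (chartAt (E d) x).symm p)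
    (u : TangentSpace (𝓡 d) z) (a : E d)
    (hu : (mfderiv (𝓡 d) (𝓡 d) pr z : E d →L[ℝ] E d) u = Pool.Agent.Y455.SY.A x p a) :
    ich pr x z u = a := by
  have hs : pr z ∈ (chartAt (E d) x).source := by
    rw [hz]; exact (chartAt (E d) x).map_target hp
  have h1 : MDifferentiableAt (𝓡 d) (𝓡 d) (chartAt (E d) x) (pr z) :=
    mdifferentiableAt_atlas (chart_mem_atlas (E d) x) hs
  have h2 : MDifferentiableAt (𝓡 d) (𝓡 d) pr z := (hloc z).mdifferentiableAt (by simp)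
  have h3 : mfderiv (𝓡 d) (𝓡 d) (fun z : Z => chartAt (E d) x (pr z)) z =
      (mfderiv (𝓡 d) (𝓡 d) (chartAt (E d) x) (pr z)).comp (mfderiv (𝓡 d) (𝓡 d) pr z) :=
    mfderiv_comp z h1 h2
  have h4 : ∀ y, y = (chartAt (E d) x).symm p →
      (mfderiv (𝓡 d) (𝓡 d) (chartAt (E d) x) y : E d →L[ℝ] E d) =
        Pool.Agent.Y455.SY.B x p := by
    rintro _ rfl
    rfl
  have h5 : ich pr x z u = (mfderiv (𝓡 d) (𝓡 d) (chartAt (E d) x) (pr z) : E d →L[ℝ] E d)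
      ((mfderiv (𝓡 d) (𝓡 d) pr z : E d →L[ℝ] E d) u) := by
    unfold ich
    rw [h3]
    rfl
  rw [h5, hu, h4 _ hz]
  exact Pool.Agent.Y455.SY.BA x hp a

omit [IsManifold (𝓡 d) ∞ Z] [IsManifold (𝓡 d) ∞ X] in
theorem form_congr (σ : Form d X 2) {y y' : X} (h : y = y') (a b : E d) :
    (σ y : (E d) [⋀^Fin 2]→L[ℝ] ℝ) ![a, b] = (σ y' : (E d) [⋀^Fin 2]→L[ℝ] ℝ) ![a, b] := by
  subst h; rfl

omit [IsManifold (𝓡 d) ∞ Z] [IsManifold (𝓡 d) ∞ X] in
theorem end_congr (J : End d X) {y y' : X} (h : y = y') (a : E d) :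
    (J y : E d →L[ℝ] E d) a = (J y' : E d →L[ℝ] E d) a := by
  subst h; rfl

/-- the values of the descended form in a chart -/
theorem val {pr : Z → X} (hloc : IsLocalDiffeomorph (𝓡 d) (𝓡 d) ∞ pr) {σ : Form d X 2}
    {w : Form d Z 2} (hpull : pull (d := d) pr σ = w) (x : X) {p : E d}
    (hp : p ∈ (chartAt (E d) x).target) {z : Z} (hz : pr z = (chartAt (E d) x).symm p)
    (a b : E d) :
    ∃ u v : TangentSpace (𝓡 d) z,
      (mfderiv (𝓡 d) (𝓡 d) pr z : E d →L[ℝ] E d) u = Pool.Agent.Y455.SY.A x p a ∧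
      (mfderiv (𝓡 d) (𝓡 d) pr z : E d →L[ℝ] E d) v = Pool.Agent.Y455.SY.A x p b ∧
      ich pr x z u = a ∧ ich pr x z v = b ∧
      pb (chartAt (E d) x).symm σ p ![a, b] = w z ![u, v] := by
  have hbij : Function.Surjective (mfderiv (𝓡 d) (𝓡 d) pr z : E d →L[ℝ] E d) := by
    have h1 := (hloc z).mfderivToContinuousLinearEquiv_coe (by simp)
    have h2 := ((hloc z).mfderivToContinuousLinearEquiv (by simp)).surjective
    intro y
    obtain ⟨u, hu⟩ := h2 y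
    refine ⟨u, ?_⟩
    rw [← hu, ← h1]
    rfl
  obtain ⟨u, hu⟩ := hbij (Pool.Agent.Y455.SY.A x p a)
  obtain ⟨v, hv⟩ := hbij (Pool.Agent.Y455.SY.A x p b)
  refine ⟨u, v, hu, hv, ich_eq hloc x hp hz u a hu, ich_eq hloc x hp hz v b hv, ?_⟩
  rw [← hpull, pull_apply, pb_app2]
  have h1 := form_congr σ hz.symm (Pool.Agent.Y455.SY.A x p a) (Pool.Agent.Y455.SY.A x p b)
  rw [← hu, ← hv] at h1
  have h2 : (σ ((chartAt (E d) x).symm p) : (E d) [⋀^Fin 2]→L[ℝ] ℝ)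
      ![Pool.Agent.Y455.SY.A x p a, Pool.Agent.Y455.SY.A x p b] =
      (σ ((chartAt (E d) x).symm p) : (E d) [⋀^Fin 2]→L[ℝ] ℝ)
      ![(mfderiv (𝓡 d) (𝓡 d) pr z : E d →L[ℝ] E d) u,
        (mfderiv (𝓡 d) (𝓡 d) pr z : E d →L[ℝ] E d) v] := by
    rw [hu, hv]
  exact h2.trans h1

/-- the translate of a lift of a chart vector is again a lift -/
theorem ich_smul {pr : Z → X} (hsm : ∀ γ : Γ, ContMDiff (𝓡 d) (𝓡 d) ∞ (fun z : Z => γ • z))
    (hloc : IsLocalDiffeomorph (𝓡 d) (𝓡 d) ∞ pr) (hprγ : ∀ (γ : Γ) (z : Z), pr (γ • z) = pr z)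
    (x : X) (γ : Γ) {z : Z} (hs : pr z ∈ (chartAt (E d) x).source)
    (u : TangentSpace (𝓡 d) z) :
    ich pr x (γ • z) (mfderiv (𝓡 d) (𝓡 d) (fun z : Z => γ • z) z u) = ich pr x z u := by
  have hs' : pr (γ • z) ∈ (chartAt (E d) x).source := by rw [hprγ]; exact hs
  have h1 : MDifferentiableAt (𝓡 d) (𝓡 d) (fun z : Z => chartAt (E d) x (pr z)) (γ • z) := by
    have h3 : MDifferentiableAt (𝓡 d) (𝓡 d) (chartAt (E d) x) (pr (γ • z)) :=
      mdifferentiableAt_atlas (chart_mem_atlas (E d) x) hs'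
    have h4 : MDifferentiableAt (𝓡 d) (𝓡 d) pr (γ • z) := (hloc _).mdifferentiableAt (by simp)
    exact h3.comp (γ • z) h4
  have h2 : MDifferentiableAt (𝓡 d) (𝓡 d) (fun z : Z => γ • z) z :=
    (hsm γ z).mdifferentiableAt (by simp)
  have h5 : mfderiv (𝓡 d) (𝓡 d) ((fun z : Z => chartAt (E d) x (pr z)) ∘
      (fun z : Z => γ • z)) z = (mfderiv (𝓡 d) (𝓡 d)
        (fun z : Z => chartAt (E d) x (pr z)) (γ • z)).comp
      (mfderiv (𝓡 d) (𝓡 d) (fun z : Z => γ • z) z) := mfderiv_comp z h1 h2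
  have h6 : ((fun z : Z => chartAt (E d) x (pr z)) ∘ (fun z : Z => γ • z)) =
      fun z : Z => chartAt (E d) x (pr z) := by
    funext z
    exact congrArg _ (hprγ γ z)
  rw [h6] at h5
  have h7 : ∀ u : E d, (mfderiv (𝓡 d) (𝓡 d) (fun z : Z => chartAt (E d) x (pr z)) z :
      E d →L[ℝ] E d) u = (mfderiv (𝓡 d) (𝓡 d) (fun z : Z => chartAt (E d) x (pr z)) (γ • z) :
      E d →L[ℝ] E d) ((mfderiv (𝓡 d) (𝓡 d) (fun z : Z => γ • z) z : E d →L[ℝ] E d) u) :=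
    fun u => congrArg (fun T : E d →L[ℝ] E d => T u) h5
  exact (h7 u).symm

/-- internal version of `meanAt` -/
def mean (m : (Γ → ℝ) → ℝ) (w : Form d Z 2) (z : Z) (u v : TangentSpace (𝓡 d) z) : ℝ :=
  m (fun γ : Γ => pull (d := d) (fun z : Z => γ • z) w z ![u, v])

/-- the descended average and its properties -/
theorem prep {m : (Γ → ℝ) → ℝ} (hm : IsMean m) {pr : Z → X} {K : Set X}
    (hsm : ∀ γ : Γ, ContMDiff (𝓡 d) (𝓡 d) ∞ (fun z : Z => γ • z))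
    (hloc : IsLocalDiffeomorph (𝓡 d) (𝓡 d) ∞ pr) (hrange : Set.range pr = Kᶜ)
    (hfib : ∀ z z' : Z, pr z = pr z' ↔ ∃ γ : Γ, γ • z = z')
    {w : Form d Z 2} (hw : IsSmooth w) (hwc : IsClosedForm w)
    (hbd : BoundedTranslates (Γ := Γ) w) (J : End d X) :
    ∃ σ : Form d X 2, SmoothOff σ K ∧ IsDOff σ 0 K ∧
      (∀ (z : Z) (u v : TangentSpace (𝓡 d) z),
        σ (pr z) ![mfderiv (𝓡 d) (𝓡 d) pr z u, mfderiv (𝓡 d) (𝓡 d) pr z v] = mean m w z u v) ∧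
      (∀ x : X, (∃ B : ℝ, ∀ᶠ y in 𝓝 x, ∀ z : Z, pr z = y → ∀ u v : TangentSpace (𝓡 d) z,
          |w z ![u, v]| ≤ B * ‖ich pr x z u‖ * ‖ich pr x z v‖) → BddAt σ K x) ∧
      ((∀ (z : Z) (u v : TangentSpace (𝓡 d) z),
          mfderiv (𝓡 d) (𝓡 d) pr z v = J (pr z) (mfderiv (𝓡 d) (𝓡 d) pr z u) →
          0 ≤ mean m w z u v) →
        ∀ x, x ∉ K → ∀ v : TangentSpace (𝓡 d) x, 0 ≤ σ x ![v, J x v]) ∧
      ∀ x : X, (∃ c : ℝ, 0 < c ∧ ∀ᶠ y in 𝓝 x, ∀ z : Z, pr z = y →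
          ∀ u v : TangentSpace (𝓡 d) z,
          mfderiv (𝓡 d) (𝓡 d) pr z v = J (pr z) (mfderiv (𝓡 d) (𝓡 d) pr z u) →
          c * ‖ich pr x z u‖ ^ 2 ≤ mean m w z u v) → UTAt σ J K x := by
  obtain ⟨w', hw', hwc', hinv, hav⟩ := average hm hsm hw hwc hbd
  obtain ⟨σ, hσ, hσc, hpull⟩ := desc_off hsm hloc hrange hfib hw' hwc' hinv
  have hprγ : ∀ (γ : Γ) (z : Z), pr (γ • z) = pr z := fun γ z =>
    ((hfib z (γ • z)).2 ⟨γ, rfl⟩).symm
  have hval : ∀ (z : Z) (u v : TangentSpace (𝓡 d) z), w' z ![u, v] = mean m w z u v :=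
    fun z u v => hav z ![u, v]
  have hsurj : ∀ x, x ∉ K → ∃ z, pr z = x := by
    intro x hx
    have : x ∈ Set.range pr := by rw [hrange]; exact hx
    exact this
  refine ⟨σ, hσ, hσc, ?_, ?_, ?_, ?_⟩
  · intro z u v
    rw [← hval, ← hpull, pull_apply]
  · rintro x ⟨B, hB⟩
    have h1 := (ev_chart (d := d) x (fun y => ∀ z : Z, pr z = y →
      ∀ u v : TangentSpace (𝓡 d) z,
        |w z ![u, v]| ≤ B * ‖ich pr x z u‖ * ‖ich pr x z v‖)).2 hB
    have h2 : ∀ᶠ p in 𝓝 (chartAt (E d) x x), p ∈ (chartAt (E d) x).target :=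
      (chartAt (E d) x).open_target.mem_nhds (mem_chart_target (E d) x)
    refine ⟨max B 0, ?_⟩
    filter_upwards [h1, h2] with p hp hpt hpK
    refine norm_le2 _ (le_max_right _ _) fun a b => ?_
    obtain ⟨z, hz⟩ := hsurj _ hpK
    obtain ⟨u, v, -, -, hu, hv, he⟩ := val hloc hpull x hpt hz a b
    rw [he, hval]
    have hs : pr z ∈ (chartAt (E d) x).source := by
      rw [hz]; exact (chartAt (E d) x).map_target hpt
    have h3 : ∀ γ : Γ, |pull (d := d) (fun z : Z => γ • z) w z ![u, v]| ≤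
        max B 0 * ‖a‖ * ‖b‖ := by
      intro γ
      rw [pull_apply]
      have h4 := hp (γ • z) (by rw [hprγ]; exact hz)
        (mfderiv (𝓡 d) (𝓡 d) (fun z : Z => γ • z) z u)
        (mfderiv (𝓡 d) (𝓡 d) (fun z : Z => γ • z) z v)
      rw [ich_smul hsm hloc hprγ x γ hs, ich_smul hsm hloc hprγ x γ hs, hu, hv] at h4
      refine h4.trans ?_
      have := le_max_left B 0
      gcongr
    exact Pool.Agent.Y153.SY.m_abs hm h3
  · intro hpos x hx v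
    obtain ⟨z, rfl⟩ := hsurj x hx
    have hbij : Function.Bijective (mfderiv (𝓡 d) (𝓡 d) pr z) := by
      have h1 := (hloc z).mfderivToContinuousLinearEquiv_coe (by simp)
      rw [← h1]
      exact ((hloc z).mfderivToContinuousLinearEquiv (by simp)).bijective
    obtain ⟨u, hu⟩ := hbij.2 v
    obtain ⟨u', hu'⟩ := hbij.2 (J (pr z) v)
    have h1 := hpos z u u' (by rw [hu', hu])
    rw [← hval, ← hpull, pull_apply, hu, hu'] at h1
    exact h1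
  · rintro x ⟨c, hc, hB⟩
    have h1 := (ev_chart (d := d) x (fun y => ∀ z : Z, pr z = y →
      ∀ u v : TangentSpace (𝓡 d) z,
        mfderiv (𝓡 d) (𝓡 d) pr z v = J (pr z) (mfderiv (𝓡 d) (𝓡 d) pr z u) →
        c * ‖ich pr x z u‖ ^ 2 ≤ mean m w z u v)).2 hB
    have h2 : ∀ᶠ p in 𝓝 (chartAt (E d) x x), p ∈ (chartAt (E d) x).target :=
      (chartAt (E d) x).open_target.mem_nhds (mem_chart_target (E d) x)
    refine ⟨c, hc, ?_⟩
    filter_upwards [h1, h2] with p hp hpt hpK a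
    obtain ⟨z, hz⟩ := hsurj _ hpK
    obtain ⟨u, v, hua, hvb, hu, hv, he⟩ := val hloc hpull x hpt hz a (inChart J x p a)
    rw [he, hval]
    have h3 : (Pool.Agent.Y455.SY.A x p) (inChart J x p a) =
        J ((chartAt (E d) x).symm p) (Pool.Agent.Y455.SY.A x p a) :=
      Pool.Agent.Y455.SY.AB x hpt _
    have h4 := hp z hz u v (by
      have h5 := end_congr J hz (Pool.Agent.Y455.SY.A x p a)
      have h6 : (mfderiv (𝓡 d) (𝓡 d) pr z : E d →L[ℝ] E d) v =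
          (J (pr z) : E d →L[ℝ] E d) ((mfderiv (𝓡 d) (𝓡 d) pr z : E d →L[ℝ] E d) u) := by
        rw [hvb, hua, h5]
        exact h3
      exact h6)
    rw [hu] at h4
    exact h4

end

end Pool.Agent.Q235.SY

namespace Pool.Agent.Q235.SYP

open Pool.Agent.Y501.SYP

attribute [local instance] cs mf

theorem smallAll_mono {d : ℕ} {X : Type} [TopologicalSpace X] [ChartedSpace (ES d) X]
    {J : End (ES d) X} {C C' : Set X} (hC : C' ⊆ C) {z : X} (h : SmallAll J C z) :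
    SmallAll J C' z := by
  rcases h with ⟨N, hN, h⟩ | h | ⟨n, a, b, hab, hpos⟩
  · refine Or.inl ⟨N, hN, measure_mono_null (image_mono ?_) h⟩
    exact inter_subset_inter_left _ (inter_subset_inter_left _ hC)
  · refine Or.inr (Or.inl fun v h1 h2 => h v ?_ ?_)
    · exact fun g hg hg0 => h1 g hg fun x hx => hg0 x (hC hx)
    · exact fun g hg hg0 => h2 g hg fun x hx => hg0 x (hC hx)
  · refine Or.inr (Or.inr ⟨n, a, b, fun i => ⟨(hab i).smooth_a, (hab i).smooth_b, ?_⟩, hpos⟩)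
    obtain ⟨N, hN, h0⟩ := (hab i).null
    exact ⟨N, hN, measure_mono_null (image_mono (inter_subset_inter_left _ hC)) h0⟩

theorem main {d : ℕ} {Z X : Type} [TopologicalSpace Z] [ChartedSpace (ES d) Z]
    [IsManifold 𝓘(ℝ, ES d) ∞ Z] [TopologicalSpace X] [ChartedSpace (ES d) X]
    [IsManifold 𝓘(ℝ, ES d) ∞ X] [CompactSpace X] [T2Space X] (hd : 1 ≤ d)
    {Γ : Type} [Group Γ] [MulAction Γ Z] {m : (Γ → ℝ) → ℝ} (hm : IsMean m)
    (J : End (ES d) X) (hJ : IsAlmostComplex J) (K : Set X) (hK : IsClosed K)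
    (hH : ∀ x₀ : X, μH[(d : ℝ) - 1] (chartAt (ES d) x₀ '' (K ∩ (chartAt (ES d) x₀).source)) = 0)
    (pr : Z → X) (hpr : CoveringOff (ES d) Γ pr K)
    (w : Form (ES d) Z 2) (hw : IsSmooth w) (hwc : IsClosedForm w)
    (hbt : BoundedTranslates Γ w) (hb : ∀ x ∈ K, BddOver pr w x)
    (hpos : ∀ (z : Z) (u v : TangentSpace 𝓘(ℝ, ES d) z), IsLift pr J z u v →
      0 ≤ meanAt m w z u v)
    (hsmall : ∀ x ∈ MeanCrit m pr J w,
      SmallAll J (connectedComponentIn (MeanCrit m pr J w) x) x)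
    (U : Set X) (hU : IsOpen U) (hKU : K ⊆ U) :
    ∃ (α : Form (ES d) X 1) (η σ : Form (ES d) X 2), IsSmooth α ∧ IsSmooth η ∧ IsD α η ∧
      IsTamingSymplectic σ J ∧ ∀ z : Z, pr z ∉ U → ∀ u v : TangentSpace 𝓘(ℝ, ES d) z,
        σ (pr z) ![mfderiv 𝓘(ℝ, ES d) 𝓘(ℝ, ES d) pr z u,
            mfderiv 𝓘(ℝ, ES d) 𝓘(ℝ, ES d) pr z v] =
          meanAt m w z u v + η (pr z) ![mfderiv 𝓘(ℝ, ES d) 𝓘(ℝ, ES d) pr z u,
            mfderiv 𝓘(ℝ, ES d) 𝓘(ℝ, ES d) pr z v] := by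
  obtain ⟨σ, h1, h2, h3, h4, h5, h6⟩ := SY.prep (d := d) (Z := Z) (X := X) (Γ := Γ) (m := m)
    (mean_of hm) (pr := pr) (K := K) hpr.smooth hpr.diffeo hpr.range hpr.orbits (w := w)
    ((smooth_iff w).1 hw) ((closed_iff w).1 hwc) ((bdt_iff w).1 hbt) J
  have hcl : ClosedOff σ K := by
    intro V φ hφ hK
    refine ⟨h1 V φ hφ.1 hφ.2 hK, fun p hp => ?_⟩
    have e := h2 V φ hφ.1 hφ.2 hK p hp
    rw [Pool.Agent.Y501.SY.pb_zero] at e
    exact e
  have hsub : Crit σ J K ⊆ MeanCrit m pr J w := by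
    intro x hx hmx
    exact hx (h6 x hmx)
  have hthin : ∀ z ∈ Crit σ J K, SmallAll J (connectedComponentIn (Crit σ J K) z) z := by
    intro z hz
    exact smallAll_mono (connectedComponentIn_mono z hsub) (hsmall z (hsub hz))
  obtain ⟨α, η, w', g1, g2, g3, g4, g5⟩ := removableSing hd J hJ K hK hH σ hcl
    (fun x hx => h4 x (hb x hx)) (h5 hpos) hthin U hU hKU
  refine ⟨α, η, w', g1, g2, g3, g4, fun z hz u v => ?_⟩
  rw [g5 _ hz]
  have h7 := h3 z u v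
  change σ (pr z) ![mfderiv 𝓘(ℝ, ES d) 𝓘(ℝ, ES d) pr z u,
            mfderiv 𝓘(ℝ, ES d) 𝓘(ℝ, ES d) pr z v] + _ = _
  exact congrArg₂ (· + ·) h7 rfl

end Pool.Agent.Q235.SYP
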