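import Pool.Agent.Y501.SY.AmenIff
import Pool.Agent.Y501.SY.StmT

/-!
Invariant closed forms on a covering of the complement of a closed set descend to closed forms on
the complement, and averages of bounded forms.
-/

set_option autoImplicit false

open Set Filter Topology MeasureTheory
open scoped Manifold ContDiff

noncomputable section

namespace Pool.Agent.Q235.SY

open Pool.Agent.Y501.SY Pool.Agent.Y604.SY

section

variable {d : ℕ} {Z X : Type} [TopologicalSpace Z] [ChartedSpace (E d) Z]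
  [IsManifold (𝓡 d) ∞ Z] [TopologicalSpace X] [ChartedSpace (E d) X]
  [IsManifold (𝓡 d) ∞ X] {Γ : Type} [Group Γ] [MulAction Γ Z]

/-- Invariant closed forms descend to the complement of `K`. -/
theorem desc_off {pr : Z → X} {K : Set X}
    (hΓ : ∀ γ : Γ, ContMDiff (𝓡 d) (𝓡 d) ∞ (fun z : Z => γ • z))
    (hloc : IsLocalDiffeomorph (𝓡 d) (𝓡 d) ∞ pr) (hrange : Set.range pr = Kᶜ)
    (hfib : ∀ z z' : Z, pr z = pr z' ↔ ∃ γ : Γ, γ • z = z')
    {w : Form d Z 2} (hw : IsSmooth w) (hwc : IsClosedForm w)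
    (hinv : ∀ γ : Γ, pull (d := d) (fun z : Z => γ • z) w = w) :
    ∃ σ : Form d X 2, SmoothOff σ K ∧ IsDOff σ 0 K ∧ pull (d := d) pr σ = w := by
  classical
  have hn : (∞ : WithTop ℕ∞) ≠ 0 := by simp
  have hB : ∀ z : Z, ∃ B : E d ≃L[ℝ] E d,
      (B : E d →L[ℝ] E d) = mfderiv (𝓡 d) (𝓡 d) pr z := fun z =>
    ⟨(hloc z).mfderivToContinuousLinearEquiv hn, (hloc z).mfderivToContinuousLinearEquiv_coe hn⟩
  choose B hB using hB
  have hmp : ∀ z, MDifferentiableAt (𝓡 d) (𝓡 d) pr z := fun z => (hloc z).mdifferentiableAt hn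
  have hsurj : ∀ x, x ∉ K → ∃ z, pr z = x := by
    intro x hx
    have : x ∈ Set.range pr := by rw [hrange]; exact hx
    exact this
  have hch : ∀ x : X, ∃ o : Option Z, (x ∉ K → ∃ z, o = some z ∧ pr z = x) := by
    intro x
    by_cases hx : x ∈ K
    · exact ⟨none, fun h => absurd hx h⟩
    · obtain ⟨z, hz⟩ := hsurj x hx
      exact ⟨some z, fun _ => ⟨z, rfl, hz⟩⟩
  choose s hs using hch
  let σ : Form d X 2 := fun x => ((s x).elim (0 : (E d) [⋀^Fin 2]→L[ℝ] ℝ) fun z =>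
    (w z : (E d) [⋀^Fin 2]→L[ℝ] ℝ).compContinuousLinearMap ((B z).symm : E d →L[ℝ] E d))
  have hσs : ∀ x, x ∉ K → ∃ z, pr z = x ∧ σ x =
      (w z : (E d) [⋀^Fin 2]→L[ℝ] ℝ).compContinuousLinearMap
        ((B z).symm : E d →L[ℝ] E d) := by
    intro x hx
    obtain ⟨z, hz, hzx⟩ := hs x hx
    refine ⟨z, hzx, ?_⟩
    change ((s x).elim (0 : (E d) [⋀^Fin 2]→L[ℝ] ℝ) fun z =>
      (w z : (E d) [⋀^Fin 2]→L[ℝ] ℝ).compContinuousLinearMap
        ((B z).symm : E d →L[ℝ] E d)) = _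
    rw [hz]
    rfl
  have hprγ : ∀ (γ : Γ) (z : Z), pr (γ • z) = pr z := fun γ z =>
    ((hfib z (γ • z)).2 ⟨γ, rfl⟩).symm
  have hpK : ∀ z, pr z ∉ K := by
    intro z
    have : pr z ∈ Set.range pr := ⟨z, rfl⟩
    rw [hrange] at this
    exact this
  have hpull : ∀ z, pull (d := d) pr σ z = w z := by
    intro z
    obtain ⟨y, hy, hσy⟩ := hσs (pr z) (hpK z)
    obtain ⟨γ, hγ⟩ := (hfib z y).1 hy.symm
    have h1 : pull (d := d) (fun z : Z => γ • z) w z = w z := congrFun (hinv γ) z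
    have hmd : MDifferentiableAt (𝓡 d) (𝓡 d) (fun z : Z => γ • z) z :=
      (hΓ γ z).mdifferentiableAt hn
    have h2 : ∀ v : E d, (mfderiv (𝓡 d) (𝓡 d) pr z : E d →L[ℝ] E d) v =
        (mfderiv (𝓡 d) (𝓡 d) pr (γ • z) : E d →L[ℝ] E d)
          ((mfderiv (𝓡 d) (𝓡 d) (fun z : Z => γ • z) z : E d →L[ℝ] E d) v) := by
      intro v
      have h3 : (mfderiv (𝓡 d) (𝓡 d) (pr ∘ (fun z : Z => γ • z)) z : E d →L[ℝ] E d) =
          (mfderiv (𝓡 d) (𝓡 d) pr (γ • z) : E d →L[ℝ] E d).comp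
            (mfderiv (𝓡 d) (𝓡 d) (fun z : Z => γ • z) z : E d →L[ℝ] E d) :=
        mfderiv_comp z (hmp _) hmd
      have h4 : pr ∘ (fun z : Z => γ • z) = pr := funext fun z => hprγ γ z
      rw [h4] at h3
      exact congrArg (fun T : E d →L[ℝ] E d => T v) h3
    have claim : ∀ (y : Z), γ • z = y → ∀ v : Fin 2 → E d,
        (w y : (E d) [⋀^Fin 2]→L[ℝ] ℝ)
          (fun i => (B y).symm ((mfderiv (𝓡 d) (𝓡 d) pr z : E d →L[ℝ] E d) (v i))) =
        (w z : (E d) [⋀^Fin 2]→L[ℝ] ℝ) v := by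
      rintro _ rfl v
      have h5 : (fun i => (B (γ • z)).symm
          ((mfderiv (𝓡 d) (𝓡 d) pr z : E d →L[ℝ] E d) (v i))) =
          fun i => (mfderiv (𝓡 d) (𝓡 d) (fun z : Z => γ • z) z : E d →L[ℝ] E d) (v i) := by
        funext i
        rw [ContinuousLinearEquiv.symm_apply_eq, h2 (v i), ← hB (γ • z)]
        rfl
      rw [h5]
      exact congrArg (fun T : (E d) [⋀^Fin 2]→L[ℝ] ℝ => T v) h1
    have hcl := claim _ hγ
    have h6 : pull (d := d) pr σ z = (σ (pr z)).compContinuousLinearMap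
        (mfderiv (𝓡 d) (𝓡 d) pr z) := rfl
    rw [h6, hσy]
    ext v
    exact hcl v
  have key : ∀ (U : Set (E d)) (φ : E d → X), IsOpen U → ContMDiffOn (𝓡 d) (𝓡 d) ∞ φ U →
      (∀ p ∈ U, φ p ∉ K) →
      ∀ p₀ ∈ U, ∃ (U' : Set (E d)) (ψ : E d → Z), IsOpen U' ∧ p₀ ∈ U' ∧
        ContMDiffOn (𝓡 d) (𝓡 d) ∞ ψ U' ∧ ∀ p ∈ U', pb φ σ p = pb ψ w p := by
    intro U φ hU hφ hφK p₀ hp₀
    obtain ⟨z₀, hz₀⟩ := hsurj (φ p₀) (hφK p₀ hp₀)
    obtain ⟨Φ, hz, hΦ⟩ := hloc z₀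
    have hU' : IsOpen (U ∩ φ ⁻¹' Φ.target) :=
      hφ.continuousOn.isOpen_inter_preimage hU Φ.open_target
    have hψ : ContMDiffOn (𝓡 d) (𝓡 d) ∞ (Φ.symm ∘ φ) (U ∩ φ ⁻¹' Φ.target) :=
      Φ.contMDiffOn_invFun.comp (hφ.mono inter_subset_left) fun p hp => hp.2
    refine ⟨U ∩ φ ⁻¹' Φ.target, Φ.symm ∘ φ, hU', ⟨hp₀, ?_⟩, hψ, ?_⟩
    · show φ p₀ ∈ Φ.target
      rw [← hz₀, hΦ hz]
      exact Φ.map_source hz
    · intro p hp
      have hψp : MDifferentiableAt (𝓡 d) (𝓡 d) (Φ.symm ∘ φ) p :=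
        ((hψ p hp).contMDiffAt (hU'.mem_nhds hp)).mdifferentiableAt hn
      have h1 : φ =ᶠ[𝓝 p] pr ∘ (Φ.symm ∘ φ) := by
        filter_upwards [hU'.mem_nhds hp] with r hr
        have h2 : Φ.symm (φ r) ∈ Φ.source := Φ.map_target hr.2
        show φ r = pr (Φ.symm (φ r))
        rw [hΦ h2]
        exact (Φ.right_inv hr.2).symm
      have h2 : pb φ σ p = pbG σ (pr ∘ (Φ.symm ∘ φ)) p := pbG_congr σ h1
      have h3 : pull (d := d) pr σ ((Φ.symm ∘ φ) p) = w ((Φ.symm ∘ φ) p) := hpull _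
      rw [h2, pbG_comp σ (hmp _) hψp]
      exact congrArg (fun T : (E d) [⋀^Fin 2]→L[ℝ] ℝ => T.compContinuousLinearMap
        (mfderiv (𝓡 d) (𝓡 d) (Φ.symm ∘ φ) p : E d →L[ℝ] E d)) h3
  refine ⟨σ, ?_, ?_, funext hpull⟩
  · intro U φ hU hφ hφK p₀ hp₀
    obtain ⟨U', ψ, hU', hp, hψ, he⟩ := key U φ hU hφ hφK p₀ hp₀
    have h1 := (hw U' ψ hU' hψ).contDiffAt (hU'.mem_nhds hp)
    have h2 : pb φ σ =ᶠ[𝓝 p₀] pb ψ w := by
      filter_upwards [hU'.mem_nhds hp] with p hp using he p hp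
    exact (h1.congr_of_eventuallyEq h2).contDiffWithinAt
  · intro U φ hU hφ hφK p₀ hp₀
    obtain ⟨U', ψ, hU', hp, hψ, he⟩ := key U φ hU hφ hφK p₀ hp₀
    have h2 : pb φ σ =ᶠ[𝓝 p₀] pb ψ w := by
      filter_upwards [hU'.mem_nhds hp] with p hp using he p hp
    have h3 := hwc U' ψ hU' hψ p₀ hp
    rw [h2.extDeriv_eq, h3]
    ext v
    rfl

/-- the average of a closed form with bounded translates -/
theorem average {m : (Γ → ℝ) → ℝ} (hm : IsMean m)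
    (hsm : ∀ γ : Γ, ContMDiff (𝓡 d) (𝓡 d) ∞ (fun z : Z => γ • z))
    {w : Form d Z 2} (hw : IsSmooth w) (hwc : IsClosedForm w)
    (hbd : BoundedTranslates (Γ := Γ) w) :
    ∃ w' : Form d Z 2, IsSmooth w' ∧ IsClosedForm w' ∧
      (∀ γ : Γ, pull (d := d) (fun z : Z => γ • z) w' = w') ∧
      ∀ (z : Z) (u : Fin 2 → TangentSpace (𝓡 d) z),
        w' z u = m (fun γ : Γ => pull (d := d) (fun z : Z => γ • z) w z u) := by
  obtain ⟨w', hw', hwc', hav⟩ := Pool.Agent.Y141.SY.t_MEAN Pool.Agent.Y153.SY.t_AVG d Z Γ m hm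
    hsm w hw hwc hbd
  refine ⟨w', hw', hwc', fun g => ?_, fun z u => (hav z u).2⟩
  funext z
  ext u
  have hu : ![u 0, u 1] = u := by
    funext i; fin_cases i <;> rfl
  have e1 : pull (d := d) (fun z : Z => g • z) w' z u =
      w' (g • z) ![mfderiv (𝓡 d) (𝓡 d) (fun z : Z => g • z) z (u 0),
        mfderiv (𝓡 d) (𝓡 d) (fun z : Z => g • z) z (u 1)] := by
    rw [← pull_apply, hu]
  rw [e1, (hav _ _).2, (hav _ _).2]
  have e2 : (fun γ : Γ => pull (d := d) (fun z : Z => γ • z) w (g • z)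
      ![mfderiv (𝓡 d) (𝓡 d) (fun z : Z => g • z) z (u 0),
        mfderiv (𝓡 d) (𝓡 d) (fun z : Z => g • z) z (u 1)]) =
      fun γ : Γ => (fun γ : Γ => pull (d := d) (fun z : Z => γ • z) w z u) (γ * g) := by
    funext γ
    rw [pull_mul hsm, hu]
  rw [e2, hm.inv g _ (hav z u).1]

end

end Pool.Agent.Q235.SY
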